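import Mathlib
import Pool.Agent.Lib.MP_3d3eb4_co.Defs
import Pool.Agent.Lib.MP_3d3eb4_co.PX.Bridge

namespace Pool.Agent.Results.MP_3d3eb4_co.NearFull

open Pool.Agent.Lib.MP_3d3eb4_co

/-- For all large `n` and all `k ≥ n - 2` no latin square of order `n` contains an indivisible
`k`-plex. -/
theorem result : ∃ N : ℕ, ∀ n : ℕ, N ≤ n → ∀ k : ℕ, n ≤ k + 2 →
    ¬ ∃ (L : Fin n → Fin n → Fin n) (P : Finset (Fin n × Fin n)),
      IsLatinSquare L ∧ IsIndivisiblePlex L k P :=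
  PlexX.nearFull

end Pool.Agent.Results.MP_3d3eb4_co.NearFull
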