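import Mathlib
import Pool.Agent.Lib.MP_3d3eb4_co.Defs
import Pool.Agent.Lib.MP_3d3eb4_co.PL.All

namespace Pool.Agent.Results.MP_3d3eb4_co.PolylogGap

open Pool.Agent.Lib.MP_3d3eb4_co

/-- There is a constant `C` such that for all large `n` and all `k` with
`1 ≤ k ≤ n - C (log n)^3` some latin square of order `n` contains an indivisible `k`-plex. -/
theorem result : ∃ (C : ℝ) (N : ℕ), ∀ n : ℕ, N ≤ n → ∀ k : ℕ,
    1 ≤ k → (k : ℝ) ≤ (n : ℝ) - C * Real.log (n : ℝ) ^ 3 →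
    ∃ (L : Fin n → Fin n → Fin n) (P : Finset (Fin n × Fin n)),
      IsLatinSquare L ∧ IsIndivisiblePlex L k P :=
  PlexS.all

end Pool.Agent.Results.MP_3d3eb4_co.PolylogGap
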