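import Mathlib
import Pool.Agent.Lib.MP_3d3eb4_co.Defs
import Pool.Agent.FS.H31P.D

namespace Pool.Agent.Results.MP_3d3eb4_co.ThreeK

open Pool.Agent.Lib.MP_3d3eb4_co

/-- For all `k ≥ 7` and all `n ≥ 3k + 12` some latin square of order `n` contains an
indivisible `k`-plex. -/
theorem result : ∀ k n : ℕ, 7 ≤ k → 3 * k + 12 ≤ n →
    ∃ (L : Fin n → Fin n → Fin n) (P : Finset (Fin n × Fin n)),
      IsLatinSquare L ∧ IsIndivisiblePlex L k P :=
  Pool.Agent.FS.H31P.main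

end Pool.Agent.Results.MP_3d3eb4_co.ThreeK
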